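import Mathlib

/-!
# The bifurcation radius equals the distance to the boundary of the Mandelbrot set
for non-real parameters close to `1 / 4`
-/

set_option autoImplicit false

open Complex Metric Filter Topology
open scoped OnePoint

namespace Pool.Agent.Results.MP_77ccbb_an.EqualityNearQuarter

/-- The quadratic polynomial `z ^ 2 + c`. -/
def f (c z : ℂ) : ℂ := z ^ 2 + c

/-- The Mandelbrot set. -/
def M : Set ℂ := {c | ¬ Tendsto (fun n : ℕ => ‖(f c)^[n] 0‖) atTop atTop}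

/-- The action of `f c` on the Riemann sphere. -/
def fhat (c : ℂ) : OnePoint ℂ → OnePoint ℂ := OnePoint.map (f c)

/-- The semigroup `G_{c,r}` of all compositions of the maps `f c'`, `|c' - c| ≤ r`. -/
inductive G (c : ℂ) (r : ℝ) : (OnePoint ℂ → OnePoint ℂ) → Prop
  | gen (c' : ℂ) (h : c' ∈ closedBall c r) : G c r (fhat c')
  | comp (c' : ℂ) (h : c' ∈ closedBall c r) (g : OnePoint ℂ → OnePoint ℂ) (hg : G c r g) :
      G c r (fhat c' ∘ g)

/-- Nonempty compact subsets of the sphere which are mapped into themselves by `G_{c,r}`. -/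
def Inv (c : ℂ) (r : ℝ) (L : Set (OnePoint ℂ)) : Prop :=
  L.Nonempty ∧ IsCompact L ∧ ∀ g, G c r g → g '' L ⊆ L

/-- Minimal sets of `G_{c,r}`. -/
def IsMinimalSet (c : ℂ) (r : ℝ) (L : Set (OnePoint ℂ)) : Prop :=
  Inv c r L ∧ ∀ L' : Set (OnePoint ℂ), Inv c r L' → L' ⊆ L → L' = L

/-- A subset of the sphere is planar if it does not contain infinity. -/
def Planar (L : Set (OnePoint ℂ)) : Prop := (∞ : OnePoint ℂ) ∉ L

/-- The bifurcation radius. -/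
noncomputable def rbif (c : ℂ) : ℝ :=
  sInf {r : ℝ | 0 ≤ r ∧ ¬ ∃ L : Set (OnePoint ℂ), IsMinimalSet c r L ∧ Planar L}

/-! ### The invariant disc -/

lemma nsq (z : ℂ) : ‖z‖ ^ 2 = z.re * z.re + z.im * z.im := by
  rw [← normSq_eq_norm_sq, normSq_apply]


lemma real_ineq {a b s t r : ℝ} (ha : a ^ 2 + b ^ 2 = 1) (hs : s ^ 2 + t ^ 2 = 1)
    (ha' : 4 / 5 ≤ a) (hr0 : 0 ≤ r) (hr : r ≤ 1 / 50) :
    (s / 5 + (a * ((s - 1) ^ 2 - t ^ 2) - b * (2 * ((s - 1) * t))) / 25 - r) ^ 2 +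
      (t / 5 + (b * ((s - 1) ^ 2 - t ^ 2) + a * (2 * ((s - 1) * t))) / 25) ^ 2
      ≤ (1 / 5 - r) ^ 2 := by
  have hP : (s - 1) ^ 2 - t ^ 2 = -2 * s * (1 - s) := by linear_combination -hs
  rw [hP]
  have h4 : (a * s - b * t) ^ 2 + (b * s + a * t) ^ 2 = 1 := by
    have : (a * s - b * t) ^ 2 + (b * s + a * t) ^ 2 = (a ^ 2 + b ^ 2) * (s ^ 2 + t ^ 2) := by
      ring
    rw [this, ha, hs]; ring
  have hk : a * s - b * t ≤ 1 := by nlinarith [sq_nonneg (b * s + a * t)]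
  have hs1 : s ≤ 1 := by nlinarith [sq_nonneg t]
  have hs2 : -1 ≤ s := by nlinarith [sq_nonneg t]
  have key : (s / 5 + (a * (-2 * s * (1 - s)) - b * (2 * ((s - 1) * t))) / 25 - r) ^ 2 +
      (t / 5 + (b * (-2 * s * (1 - s)) + a * (2 * ((s - 1) * t))) / 25) ^ 2 =
      (1 / 5 - r) ^ 2 + 2 / 5 * (1 - s) *
        (2 / 125 * (1 - s) - 2 / 25 * a + r + 2 / 5 * r * (a * s - b * t)) := by
    linear_combination (4 * (1 - s) ^ 2 / 625) * h4 + (1 / 25 - 4 * (1 - s) * a / 125) * hs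
  rw [key]
  have h5 : 2 / 125 * (1 - s) - 2 / 25 * a + r + 2 / 5 * r * (a * s - b * t) ≤ 0 := by
    have : r * (a * s - b * t) ≤ r * 1 := mul_le_mul_of_nonneg_left hk hr0
    linarith
  nlinarith

lemma sphere_bound {ν e : ℂ} {ρ : ℝ} (hν : ‖ν‖ = 1) (he : ‖e‖ = 1) (hre : 4 / 5 ≤ ν.re)
    (h0 : 0 ≤ ρ) (h1 : ρ ≤ 1 / 50) :
    ‖e / 5 + ν * (e - 1) ^ 2 / 25 - (ρ : ℂ)‖ ≤ 1 / 5 - ρ := by
  have hν' : ν.re ^ 2 + ν.im ^ 2 = 1 := by
    have := nsq ν
    rw [hν] at this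
    linarith
  have he' : e.re ^ 2 + e.im ^ 2 = 1 := by
    have := nsq e
    rw [he] at this
    linarith
  refine le_of_sq_le_sq ?_ (by linarith)
  rw [nsq]
  have e5 : (5 : ℂ) = ((5 : ℝ) : ℂ) := by push_cast; ring
  have e25 : (25 : ℂ) = ((25 : ℝ) : ℂ) := by push_cast; ring
  have hX : (e / 5 + ν * (e - 1) ^ 2 / 25 - (ρ : ℂ)).re =
      e.re / 5 + (ν.re * ((e.re - 1) ^ 2 - e.im ^ 2) - ν.im * (2 * ((e.re - 1) * e.im))) / 25
        - ρ := by
    rw [e5, e25]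
    simp only [sub_re, add_re, div_ofReal_re, mul_re, pow_two, sub_im, one_re, one_im, mul_im,
      ofReal_re, sub_zero]
    ring
  have hY : (e / 5 + ν * (e - 1) ^ 2 / 25 - (ρ : ℂ)).im =
      e.im / 5 + (ν.im * ((e.re - 1) ^ 2 - e.im ^ 2) + ν.re * (2 * ((e.re - 1) * e.im))) / 25 := by
    rw [e5, e25]
    simp only [sub_re, add_im, div_ofReal_im, mul_re, pow_two, sub_im, one_re, one_im, mul_im,
      ofReal_im, sub_zero]
    ring
  rw [hX, hY]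
  have := real_ineq hν' he' hre h0 h1
  nlinarith

/-- The disc is mapped into the concentric disc of radius `1 / 5 - ρ`. -/
lemma disc_bound {ν : ℂ} {ρ : ℝ} (hν : ‖ν‖ = 1) (hre : 4 / 5 ≤ ν.re)
    (h0 : 0 ≤ ρ) (h1 : ρ ≤ 1 / 50) {z : ℂ} (hz : z ∈ closedBall (1 / 2 - ν / 5) (1 / 5)) :
    ‖f (1 / 4 - ρ * ν) z - (1 / 2 - ν / 5)‖ ≤ 1 / 5 - ρ := by
  have hcl : z ∈ closure (ball (1 / 2 - ν / 5 : ℂ) (1 / 5)) := by
    rwa [closure_ball _ (by norm_num)]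
  refine Complex.norm_le_of_forall_mem_frontier_norm_le
    (f := fun z => f (1 / 4 - ρ * ν) z - (1 / 2 - ν / 5)) isBounded_ball ?_ ?_ hcl
  · refine Differentiable.diffContOnCl ?_
    unfold f
    fun_prop
  · intro w hw
    rw [frontier_ball _ (by norm_num), mem_sphere, dist_eq_norm] at hw
    have hν0 : ν ≠ 0 := by
      intro h; rw [h, norm_zero] at hν; norm_num at hν
    set e := 5 * (w - (1 / 2 - ν / 5)) / ν with he
    have he1 : ‖e‖ = 1 := by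
      rw [he, norm_div, norm_mul, hw, hν, norm_ofNat]; norm_num
    have hw' : w = 1 / 2 - ν / 5 + ν * e / 5 := by
      rw [he]; field_simp; ring
    have h : f (1 / 4 - ρ * ν) w - (1 / 2 - ν / 5) =
        ν * (e / 5 + ν * (e - 1) ^ 2 / 25 - (ρ : ℂ)) := by
      rw [f, hw']; ring
    change ‖f (1 / 4 - ρ * ν) w - (1 / 2 - ν / 5)‖ ≤ _
    rw [h, norm_mul, hν, one_mul]
    exact sphere_bound hν he1 hre h0 h1

lemma disc_inv {ν : ℂ} {ρ : ℝ} (hν : ‖ν‖ = 1) (hre : 4 / 5 ≤ ν.re)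
    (h0 : 0 ≤ ρ) (h1 : ρ ≤ 1 / 50) {z c' : ℂ} (hz : z ∈ closedBall (1 / 2 - ν / 5) (1 / 5))
    (hc' : c' ∈ closedBall (1 / 4 - ρ * ν) ρ) : f c' z ∈ closedBall (1 / 2 - ν / 5) (1 / 5) := by
  rw [mem_closedBall, dist_eq_norm] at hc' ⊢
  have h2 := disc_bound hν hre h0 h1 hz
  have h3 : f c' z - (1 / 2 - ν / 5) =
      (f (1 / 4 - ρ * ν) z - (1 / 2 - ν / 5)) + (c' - (1 / 4 - ρ * ν)) := by
    unfold f; ring
  rw [h3]
  refine (norm_add_le _ _).trans ?_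
  linarith

lemma crit_mem {ν : ℂ} {ρ : ℝ} (hν : ‖ν‖ = 1) (hre : 4 / 5 ≤ ν.re)
    (h1 : ρ ≤ 1 / 50) {c' : ℂ}
    (hc' : c' ∈ closedBall (1 / 4 - ρ * ν) ρ) : c' ∈ closedBall (1 / 2 - ν / 5) (1 / 5) := by
  rw [mem_closedBall, dist_eq_norm] at hc' ⊢
  have h3 : c' - (1 / 2 - ν / 5) = (c' - (1 / 4 - ρ * ν)) +
      (((1 / 5 - ρ : ℝ) : ℂ) * ν - ((1 / 4 : ℝ) : ℂ)) := by
    push_cast; ring
  have h4 : ‖((1 / 5 - ρ : ℝ) : ℂ) * ν - ((1 / 4 : ℝ) : ℂ)‖ ≤ 1 / 5 - ρ := by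
    refine le_of_sq_le_sq ?_ (by linarith)
    rw [nsq]
    have hν' : ν.re ^ 2 + ν.im ^ 2 = 1 := by
      have := nsq ν
      rw [hν] at this
      linarith
    simp only [sub_re, sub_im, re_ofReal_mul, im_ofReal_mul, ofReal_re, ofReal_im]
    nlinarith
  rw [h3]
  refine (norm_add_le _ _).trans ?_
  linarith

lemma ball_subset_M {ν : ℂ} {ρ : ℝ} (hν : ‖ν‖ = 1) (hre : 4 / 5 ≤ ν.re)
    (h0 : 0 ≤ ρ) (h1 : ρ ≤ 1 / 50) : closedBall (1 / 4 - ρ * ν) ρ ⊆ M := by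
  intro c' hc'
  have hmem : ∀ n : ℕ, (f c')^[n + 1] 0 ∈ closedBall (1 / 2 - ν / 5) (1 / 5 : ℝ) := by
    intro n
    induction n with
    | zero =>
      have : f c' 0 = c' := by simp [f]
      simpa [this] using crit_mem hν hre h1 hc'
    | succ n ih =>
      rw [Function.iterate_succ_apply']
      exact disc_inv hν hre h0 h1 ih hc'
  intro h
  obtain ⟨B, hB⟩ := (isBounded_closedBall (x := (1 / 2 - ν / 5 : ℂ)) (r := 1 / 5)).exists_norm_le
  obtain ⟨N, hN⟩ := (tendsto_atTop_atTop.mp h) (B + 1)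
  have := hN (N + 1) (by omega)
  have h2 := hB _ (hmem N)
  linarith

/-! ### The point `1 / 4` -/

lemma real_escape (ε : ℝ) (x : ℝ) (n : ℕ) :
    ∃ y : ℝ, (f ((1 / 4 + ε : ℝ) : ℂ))^[n] (x : ℂ) = (y : ℂ) ∧ x + n * ε ≤ y := by
  induction n with
  | zero => exact ⟨x, rfl, by simp⟩
  | succ n ih =>
    obtain ⟨y, hy, hxy⟩ := ih
    refine ⟨y ^ 2 + (1 / 4 + ε), ?_, ?_⟩
    · rw [Function.iterate_succ_apply', hy, f]; push_cast; ring
    · push_cast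
      nlinarith [sq_nonneg (y - 1 / 2)]

lemma notMem_M {ε : ℝ} (hε : 0 < ε) : ((1 / 4 + ε : ℝ) : ℂ) ∉ M := by
  intro h
  refine h ?_
  have h2 : Tendsto (fun n : ℕ => (n : ℝ) * ε) atTop atTop :=
    tendsto_natCast_atTop_atTop.atTop_mul_const hε
  refine tendsto_atTop_mono (fun n => ?_) h2
  obtain ⟨y, hy, hxy⟩ := real_escape ε 0 n
  rw [ofReal_zero] at hy
  rw [hy, norm_real]
  refine le_trans ?_ (le_abs_self y)
  linarith

lemma quarter_frontier : (1 / 4 : ℂ) ∈ frontier M := by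
  have h1 : (1 / 4 : ℂ) ∈ M := by
    have := ball_subset_M (ν := 1) (ρ := 0) (by simp) (by norm_num) le_rfl (by norm_num)
    exact this (by simp)
  refine ⟨subset_closure h1, ?_⟩
  intro hint
  rw [mem_interior_iff_mem_nhds, Metric.mem_nhds_iff] at hint
  obtain ⟨ε, hε, hsub⟩ := hint
  refine notMem_M (half_pos hε) (hsub ?_)
  rw [mem_ball, dist_eq_norm]
  have : ((1 / 4 + ε / 2 : ℝ) : ℂ) - 1 / 4 = ((ε / 2 : ℝ) : ℂ) := by push_cast; ring
  rw [this, norm_real, Real.norm_eq_abs, abs_of_pos (half_pos hε)]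
  linarith

/-! ### Existence of planar minimal sets -/

lemma inv_of_gen {c : ℂ} {r : ℝ} {L : Set (OnePoint ℂ)}
    (h : ∀ c' ∈ closedBall c r, fhat c' '' L ⊆ L) : ∀ g, G c r g → g '' L ⊆ L := by
  intro g hg
  induction hg with
  | gen c' hc' => exact h c' hc'
  | comp c' hc' g _ ih =>
    rw [Set.image_comp]
    exact (Set.image_mono ih).trans (h c' hc')

lemma exists_minimal {c : ℂ} {r : ℝ} {L : Set (OnePoint ℂ)} (h : Inv c r L) (hp : Planar L) :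
    ∃ L', IsMinimalSet c r L' ∧ Planar L' := by
  obtain ⟨m, hm, hmin⟩ := zorn_superset_nonempty {K | Inv c r K} (by
    intro C hC hchain hne
    refine ⟨⋂₀ C, ?_, fun s hs => Set.sInter_subset_of_mem hs⟩
    have : Nonempty C := hne.to_subtype
    obtain ⟨K, hK⟩ := hne
    refine ⟨?_, ?_, ?_⟩
    · refine IsCompact.nonempty_sInter_of_directed_nonempty_isCompact_isClosed ?_ ?_ ?_ ?_
      · intro x hx y hy
        rcases hchain.total hx hy with h | h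
        · exact ⟨x, hx, subset_rfl, h⟩
        · exact ⟨y, hy, h, subset_rfl⟩
      · exact fun U hU => (hC hU).1
      · exact fun U hU => (hC hU).2.1
      · exact fun U hU => (hC hU).2.1.isClosed
    · exact (hC hK).2.1.of_isClosed_subset (isClosed_sInter fun U hU => (hC hU).2.1.isClosed)
        (Set.sInter_subset_of_mem hK)
    · intro g hg
      refine Set.subset_sInter fun U hU => ?_
      exact (Set.image_mono (Set.sInter_subset_of_mem hU)).trans ((hC hU).2.2 g hg)) L h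
  refine ⟨m, ⟨hmin.prop, fun L' hL' hsub => ?_⟩, fun hinf => hp (hm hinf)⟩
  exact Set.Subset.antisymm hsub (hmin.le_of_le hL' hsub)

lemma exists_planar {ν : ℂ} {ρ r : ℝ} (hν : ‖ν‖ = 1) (hre : 4 / 5 ≤ ν.re)
    (h0 : 0 ≤ ρ) (h1 : ρ ≤ 1 / 50) (hr : r ≤ ρ) :
    ∃ L, IsMinimalSet (1 / 4 - ρ * ν) r L ∧ Planar L := by
  refine exists_minimal (L := (fun z : ℂ => (z : OnePoint ℂ)) '' closedBall (1 / 2 - ν / 5) (1 / 5))
    ⟨?_, ?_, ?_⟩ ?_
  · exact (nonempty_closedBall.mpr (by norm_num)).image _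
  · exact (isCompact_closedBall _ _).image OnePoint.continuous_coe
  · refine inv_of_gen fun c' hc' => ?_
    rintro _ ⟨_, ⟨z, hz, rfl⟩, rfl⟩
    exact ⟨f c' z, disc_inv hν hre h0 h1 hz (closedBall_subset_closedBall hr hc'), rfl⟩
  · rintro ⟨z, _, hz⟩
    exact OnePoint.coe_ne_infty z hz

/-! ### Non-existence -/

/-- The square of the reciprocal of the density of the hyperbolic metric of the slit plane. -/
noncomputable def Λ (a : ℝ) (z : ℂ) : ℝ := 2 * ‖z - a‖ * (‖z - a‖ - (z - a).re)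

lemma Λ_f (a : ℝ) (z : ℂ) : Λ a (f a z) = 4 * ‖z‖ ^ 2 * z.im ^ 2 := by
  have : f (a : ℂ) z - a = z ^ 2 := by rw [f]; ring
  rw [Λ, this, norm_pow, pow_two z, mul_re]
  have := nsq z
  rw [this]
  ring

lemma Λ_ge {a δ B : ℝ} {z : ℂ} (hδ : 0 < δ) (h1 : δ ≤ |z.im|) (h2 : ‖z - a‖ ≤ B) :
    (1 + δ ^ 2 / (4 * B ^ 2)) * z.im ^ 2 ≤ Λ a z := by
  set w := z - a with hw
  have him : w.im = z.im := by rw [hw, sub_im, ofReal_im, sub_zero]
  have hn : ‖w‖ ^ 2 = w.re ^ 2 + w.im ^ 2 := by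
    rw [nsq]; ring
  have hw0 : 0 ≤ ‖w‖ := norm_nonneg _
  have hre : |w.re| ≤ ‖w‖ := abs_re_le_norm w
  have hre1 := (abs_le.mp hre).1
  have hre2 := (abs_le.mp hre).2
  have hd : δ ^ 2 ≤ w.im ^ 2 := by
    rw [him, ← sq_abs z.im]; gcongr
  have hB : 0 < B := by
    have : |w.im| ≤ ‖w‖ := abs_im_le_norm w
    rw [him] at this
    linarith
  have hfac : (‖w‖ - w.re) * (‖w‖ + w.re) = w.im ^ 2 := by nlinarith
  have h3 : δ ^ 2 / (2 * B) ≤ ‖w‖ - w.re := by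
    rw [div_le_iff₀ (by positivity)]
    nlinarith
  have h4 : δ ^ 2 / (4 * B ^ 2) * (‖w‖ + w.re) ≤ ‖w‖ - w.re := by
    have : δ ^ 2 / (4 * B ^ 2) * (‖w‖ + w.re) ≤ δ ^ 2 / (4 * B ^ 2) * (2 * B) := by
      gcongr; linarith
    have e : δ ^ 2 / (4 * B ^ 2) * (2 * B) = δ ^ 2 / (2 * B) := by
      field_simp; ring
    linarith
  have h5 : Λ a z = 2 * ‖w‖ * (‖w‖ - w.re) := by rw [Λ, ← hw]
  rw [h5, ← him, ← hfac]
  have h6 : 0 ≤ ‖w‖ - w.re := by linarith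
  have h7 : (1 + δ ^ 2 / (4 * B ^ 2)) * (‖w‖ + w.re) ≤ 2 * ‖w‖ := by linarith
  calc (1 + δ ^ 2 / (4 * B ^ 2)) * ((‖w‖ - w.re) * (‖w‖ + w.re))
      = ((1 + δ ^ 2 / (4 * B ^ 2)) * (‖w‖ + w.re)) * (‖w‖ - w.re) := by ring
    _ ≤ 2 * ‖w‖ * (‖w‖ - w.re) := by gcongr

/-- There is no nonempty compact set mapped into itself by all `f c'` with `|c' - c| ≤ r`, if
the disc contains a point `1 / 4 + ε`, `ε > 0`. -/
lemma no_compact {c : ℂ} {r ε : ℝ} (hr : 0 < r) (hε : 0 < ε)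
    (ha : ((1 / 4 + ε : ℝ) : ℂ) ∈ closedBall c r) {K : Set ℂ} (hK : IsCompact K)
    (hne : K.Nonempty) (hinv : ∀ c' ∈ closedBall c r, ∀ z ∈ K, f c' z ∈ K) : False := by
  set a : ℝ := 1 / 4 + ε with haa
  obtain ⟨B₀, hB₀⟩ := hK.isBounded.exists_norm_le
  have hit : ∀ z ∈ K, ∀ n : ℕ, (f a)^[n] z ∈ K := by
    intro z hz n
    induction n with
    | zero => exact hz
    | succ n ih => rw [Function.iterate_succ_apply']; exact hinv _ ha _ ih
  -- no real points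
  have hreal : ∀ z ∈ K, z.im ≠ 0 := by
    intro z hz him
    obtain ⟨n, hn⟩ := exists_nat_gt ((B₀ - z.re) / ε)
    obtain ⟨y, hy, hxy⟩ := real_escape ε z.re n
    have hz' : ((z.re : ℝ) : ℂ) = z := by
      apply Complex.ext <;> simp [him]
    rw [hz'] at hy
    have h1 := hB₀ _ (hit z hz n)
    rw [hy, norm_real] at h1
    have h2 := le_abs_self y
    rw [div_lt_iff₀ hε] at hn
    rw [Real.norm_eq_abs] at h1
    linarith
  -- distance from the real axis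
  obtain ⟨z₁, hz₁, hmin⟩ := hK.exists_isMinOn hne
    (f := fun z : ℂ => |z.im|) (continuous_abs.comp continuous_im).continuousOn
  set δ := |z₁.im| with hδ
  have hδ0 : 0 < δ := abs_pos.mpr (hreal z₁ hz₁)
  have hδ1 : ∀ z ∈ K, δ ≤ |z.im| := fun z hz => hmin hz
  set B := B₀ + a with hB
  have ha0 : 0 < a := by positivity
  have hBz : ∀ z ∈ K, ‖z - a‖ ≤ B := by
    intro z hz
    refine (norm_sub_le _ _).trans ?_
    rw [norm_real, Real.norm_eq_abs, abs_of_pos ha0, hB]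
    linarith [hB₀ z hz]
  have hB0 : 0 < B := by
    have : |z₁.im| ≤ ‖z₁‖ := abs_im_le_norm z₁
    have := hB₀ z₁ hz₁
    linarith
  set κ := 1 + δ ^ 2 / (4 * B ^ 2) with hκ
  have hκ1 : 1 < κ := by
    have : 0 < δ ^ 2 / (4 * B ^ 2) := by positivity
    linarith
  -- a ball in `K`
  obtain ⟨z₀, hz₀⟩ := hne
  set w := f c z₀ with hw
  have hball : closedBall w r ⊆ K := by
    intro y hy
    have : y = f (c + (y - w)) z₀ := by rw [hw]; unfold f; ring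
    rw [this]
    refine hinv _ ?_ _ hz₀
    rw [mem_closedBall, dist_eq_norm] at hy ⊢
    simpa using hy
  have hwK : w ∈ K := hball (mem_closedBall_self hr.le)
  -- derivatives
  let D : ℕ → ℂ := fun n => Nat.rec 1 (fun n D => 2 * (f a)^[n] w * D) n
  have hD : ∀ n, HasDerivAt (f a)^[n] (D n) w := by
    intro n
    induction n with
    | zero => exact hasDerivAt_id w
    | succ n ih =>
      have h1 : HasDerivAt (f (a : ℂ)) (2 * (f a)^[n] w) ((f a)^[n] w) := by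
        have := ((hasDerivAt_id ((f (a : ℂ))^[n] w)).pow 2).add_const (a : ℂ)
        simp only [id_eq, Nat.cast_ofNat, Nat.add_one_sub_one, pow_one, mul_one] at this
        exact this
      have h2 := h1.comp w ih
      rw [← Function.iterate_succ'] at h2
      exact h2
  have hgrow : ∀ n, κ ^ n * Λ a ((f a)^[n] w) ≤ ‖D n‖ ^ 2 * Λ a w := by
    intro n
    induction n with
    | zero => simp [D]
    | succ n ih =>
      set y := (f (a : ℂ))^[n] w with hy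
      have hyK : y ∈ K := hit w hwK n
      have h1 := Λ_ge hδ0 (hδ1 y hyK) (hBz y hyK)
      have h2 : (f (a : ℂ))^[n + 1] w = f a y := by rw [Function.iterate_succ_apply']
      have h3 : D (n + 1) = 2 * y * D n := rfl
      rw [h2, h3, Λ_f, norm_mul, norm_mul, norm_ofNat]
      calc κ ^ (n + 1) * (4 * ‖y‖ ^ 2 * y.im ^ 2)
          = 4 * ‖y‖ ^ 2 * (κ ^ n * (κ * y.im ^ 2)) := by ring
        _ ≤ 4 * ‖y‖ ^ 2 * (κ ^ n * Λ a y) := by gcongr
        _ ≤ 4 * ‖y‖ ^ 2 * (‖D n‖ ^ 2 * Λ a w) := by gcongr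
        _ = (2 * ‖y‖ * ‖D n‖) ^ 2 * Λ a w := by ring
  -- Cauchy estimate
  have hCauchy : ∀ n, ‖D n‖ ≤ B₀ / r := by
    intro n
    rw [← (hD n).deriv]
    refine norm_deriv_le_of_forall_mem_sphere_norm_le hr ?_ ?_
    · refine Differentiable.diffContOnCl ?_
      have : Differentiable ℂ (f (a : ℂ)) := by unfold f; fun_prop
      exact this.iterate n
    · intro z hz
      exact hB₀ _ (hit z (hball (sphere_subset_closedBall hz)) n)
  -- contradiction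
  have hB₀0 : 0 ≤ B₀ := (norm_nonneg _).trans (hB₀ w hwK)
  have hlow : ∀ y ∈ K, κ * δ ^ 2 ≤ Λ a y := by
    intro y hy
    refine le_trans ?_ (Λ_ge hδ0 (hδ1 y hy) (hBz y hy))
    have : δ ^ 2 ≤ y.im ^ 2 := by
      rw [← sq_abs y.im]
      have := hδ1 y hy
      gcongr
    gcongr
  have hup : 0 < Λ a w := lt_of_lt_of_le (by positivity) (hlow w hwK)
  have hall : ∀ n : ℕ, κ ^ n * (κ * δ ^ 2) ≤ (B₀ / r) ^ 2 * Λ a w := by
    intro n
    calc κ ^ n * (κ * δ ^ 2) ≤ κ ^ n * Λ a ((f a)^[n] w) := by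
          gcongr; exact hlow _ (hit w hwK n)
      _ ≤ ‖D n‖ ^ 2 * Λ a w := hgrow n
      _ ≤ (B₀ / r) ^ 2 * Λ a w := by gcongr; exact hCauchy n
  have htend : Tendsto (fun n : ℕ => κ ^ n * (κ * δ ^ 2)) atTop atTop :=
    (tendsto_pow_atTop_atTop_of_one_lt hκ1).atTop_mul_const (by positivity)
  obtain ⟨n, hn⟩ := (htend.eventually_gt_atTop ((B₀ / r) ^ 2 * Λ a w)).exists
  exact absurd (hall n) (not_le.mpr hn)

lemma no_planar {ν : ℂ} {ρ r : ℝ} (hν : ‖ν‖ = 1) (h0 : 0 ≤ ρ) (hr : ρ < r) :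
    ¬ ∃ L, IsMinimalSet (1 / 4 - ρ * ν) r L ∧ Planar L := by
  rintro ⟨L, ⟨⟨hne, hcomp, hinv⟩, -⟩, hp⟩
  refine no_compact (c := 1 / 4 - ρ * ν) (r := r) (ε := r - ρ) (by linarith) (by linarith) ?_
    (K := (fun z : ℂ => (z : OnePoint ℂ)) ⁻¹' L) ?_ ?_ ?_
  · rw [mem_closedBall, dist_eq_norm]
    have : ((1 / 4 + (r - ρ) : ℝ) : ℂ) - (1 / 4 - ρ * ν) = ((r - ρ : ℝ) : ℂ) + ρ * ν := by
      push_cast; ring
    rw [this]
    refine (norm_add_le _ _).trans ?_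
    rw [norm_mul, hν, norm_real, norm_real, Real.norm_eq_abs, Real.norm_eq_abs,
      abs_of_nonneg h0, abs_of_pos (by linarith : 0 < r - ρ)]
    linarith
  · have h1 : IsOpen Lᶜ := hcomp.isClosed.isOpen_compl
    rw [OnePoint.isOpen_iff_of_mem (show (∞ : OnePoint ℂ) ∈ Lᶜ from hp)] at h1
    have h2 := h1.2
    rwa [Set.preimage_compl, compl_compl] at h2
  · obtain ⟨x, hx⟩ := hne
    induction x using OnePoint.rec with
    | infty => exact (hp hx).elim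
    | coe z => exact ⟨z, hx⟩
  · intro c' hc' z hz
    have := hinv (fhat c') (G.gen c' hc') ⟨(z : OnePoint ℂ), hz, rfl⟩
    exact this

theorem rbif_eq {ν : ℂ} {ρ : ℝ} (hν : ‖ν‖ = 1) (hre : 4 / 5 ≤ ν.re)
    (h0 : 0 ≤ ρ) (h1 : ρ ≤ 1 / 50) : rbif (1 / 4 - ρ * ν) = ρ := by
  have : {r : ℝ | 0 ≤ r ∧ ¬ ∃ L : Set (OnePoint ℂ),
      IsMinimalSet (1 / 4 - ρ * ν) r L ∧ Planar L} = Set.Ioi ρ := by
    ext r
    simp only [Set.mem_ofPred_eq, Set.mem_Ioi]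
    constructor
    · rintro ⟨_, h⟩
      by_contra hr
      push Not at hr
      exact h (exists_planar hν hre h0 h1 hr)
    · intro hr
      exact ⟨by linarith, no_planar hν h0 hr⟩
  rw [rbif, this, csInf_Ioi]

theorem infDist_eq {ν : ℂ} {ρ : ℝ} (hν : ‖ν‖ = 1) (hre : 4 / 5 ≤ ν.re)
    (h0 : 0 ≤ ρ) (h1 : ρ ≤ 1 / 50) : infDist (1 / 4 - ρ * ν) (frontier M) = ρ := by
  apply le_antisymm
  · refine (infDist_le_dist_of_mem quarter_frontier).trans ?_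
    rw [dist_eq_norm]
    have : (1 / 4 - ρ * ν) - 1 / 4 = -(ρ * ν) := by ring
    rw [this, norm_neg, norm_mul, hν, norm_real, Real.norm_eq_abs, abs_of_nonneg h0, mul_one]
  · rw [le_infDist ⟨_, quarter_frontier⟩]
    intro y hy
    by_contra h
    push Not at h
    refine hy.2 ?_
    rw [mem_interior]
    refine ⟨ball (1 / 4 - ρ * ν) ρ, ball_subset_closedBall.trans (ball_subset_M hν hre h0 h1),
      isOpen_ball, ?_⟩
    rwa [mem_ball, dist_comm]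

/-- In the sector `|c - 1/4| ≤ 1/50`, `Re (1/4 - c) ≥ 4/5 |c - 1/4|` the bifurcation radius is the
distance to the boundary of the Mandelbrot set; in particular there is a parameter outside
`∂M ∪ [0, 1/4]` with this property. -/
theorem result :
    (∀ c : ℂ, c ≠ 1 / 4 → ‖c - 1 / 4‖ ≤ 1 / 50 → 4 / 5 * ‖c - 1 / 4‖ ≤ (1 / 4 - c).re →
      c ∉ frontier M ∧ rbif c = ‖c - 1 / 4‖ ∧ infDist c (frontier M) = ‖c - 1 / 4‖) ∧
    ∃ c : ℂ, c ∉ frontier M ∧ (¬ ∃ x : ℝ, 0 ≤ x ∧ x ≤ 1 / 4 ∧ c = x) ∧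
      rbif c = infDist c (frontier M) := by
  have main : ∀ c : ℂ, c ≠ 1 / 4 → ‖c - 1 / 4‖ ≤ 1 / 50 →
      4 / 5 * ‖c - 1 / 4‖ ≤ (1 / 4 - c).re →
      c ∉ frontier M ∧ rbif c = ‖c - 1 / 4‖ ∧ infDist c (frontier M) = ‖c - 1 / 4‖ := by
    intro c hc h1 h2
    set ρ := ‖c - 1 / 4‖ with hρ
    have hρ0 : 0 < ρ := norm_pos_iff.mpr (sub_ne_zero.mpr hc)
    have hρc : (ρ : ℂ) ≠ 0 := by exact_mod_cast hρ0.ne'
    set ν := (1 / 4 - c) / ρ with hν
    have hν1 : ‖ν‖ = 1 := by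
      rw [hν, norm_div, norm_real, Real.norm_eq_abs, abs_of_pos hρ0, norm_sub_rev, ← hρ,
        div_self hρ0.ne']
    have hνre : 4 / 5 ≤ ν.re := by
      rw [hν, div_ofReal_re, le_div_iff₀ hρ0]
      exact h2
    have hcν : c = 1 / 4 - ρ * ν := by
      rw [hν, mul_div_cancel₀ _ hρc]; ring
    have h3 := rbif_eq hν1 hνre hρ0.le h1
    have h4 := infDist_eq hν1 hνre hρ0.le h1
    rw [← hcν] at h3 h4
    refine ⟨?_, h3, h4⟩
    intro hmem
    rw [infDist_zero_of_mem hmem] at h4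
    exact hρ0.ne h4
  refine ⟨main, ?_⟩
  set c : ℂ := 1 / 4 - (1 / 50 : ℝ) * (4 / 5 + 3 / 5 * I) with hc
  have hre : c.re = 1 / 4 - 4 / 250 := by
    rw [hc]
    have : (1 / 4 - ((1 / 50 : ℝ) : ℂ) * (4 / 5 + 3 / 5 * I)) =
        ((1 / 4 - 4 / 250 : ℝ) : ℂ) + ((-3 / 250 : ℝ) : ℂ) * I := by push_cast; ring
    rw [this]; simp
  have him : c.im = -3 / 250 := by
    rw [hc]
    have : (1 / 4 - ((1 / 50 : ℝ) : ℂ) * (4 / 5 + 3 / 5 * I)) =
        ((1 / 4 - 4 / 250 : ℝ) : ℂ) + ((-3 / 250 : ℝ) : ℂ) * I := by push_cast; ring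
    rw [this]; simp
  have hq : (1 / 4 : ℂ) = ((1 / 4 : ℝ) : ℂ) := by push_cast; ring
  have hn : ‖c - 1 / 4‖ = 1 / 50 := by
    have h : ‖c - 1 / 4‖ ^ 2 = (1 / 50) ^ 2 := by
      rw [nsq, sub_re, sub_im, hre, him, hq, ofReal_re, ofReal_im]
      norm_num
    have h0 := norm_nonneg (c - 1 / 4)
    nlinarith
  have hne : c ≠ 1 / 4 := by
    intro h
    rw [h, sub_self, norm_zero] at hn
    norm_num at hn
  obtain ⟨h1, h2, h3⟩ := main c hne hn.le (by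
    rw [hn, sub_re, hre, hq, ofReal_re]; norm_num)
  refine ⟨c, h1, ?_, by rw [h2, h3]⟩
  rintro ⟨x, -, -, hx⟩
  rw [hx, ofReal_im] at him
  norm_num at him

end Pool.Agent.Results.MP_77ccbb_an.EqualityNearQuarter
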